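import Mathlib

set_option autoImplicit false
set_option linter.unusedSectionVars false

open Set Topology Filter

universe u

namespace Pool.Agent.Results.MP_82653f_gt.NoTestClass

/-- A class of topological spaces. -/
def SpaceClass : Type (u + 1) := ∀ (Z : Type u), TopologicalSpace Z → Prop

/-- `X` is `C`-Hausdorff: the diagonal of `X × X` is `C`-closed, i.e. its preimage under every
continuous map `Z → X × X` with `Z` in `C` is closed. -/
def CHausdorff (C : SpaceClass.{u}) (X : Type u) [TopologicalSpace X] : Prop :=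
  ∀ (Z : Type u) [tZ : TopologicalSpace Z], C Z tZ → ∀ f : Z → X × X, Continuous f →
    IsClosed (f ⁻¹' {q : X × X | q.1 = q.2})

/-- `X` is UOK: for every non-compact locally compact Hausdorff space `L` and every continuous
`f : L → X` there is at most one continuous extension to the one-point compactification. -/
def UOK (X : Type u) [TopologicalSpace X] : Prop :=
  ∀ (L : Type u) [TopologicalSpace L], T2Space L → LocallyCompactSpace L → NoncompactSpace L →
    ∀ f : L → X, Continuous f → ∀ g h : OnePoint L → X, Continuous g → Continuous h →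
      (∀ l : L, g l = f l) → (∀ l : L, h l = f l) → g = h

/-! ### Doubling a space outside an open set -/

section dbl

variable {B : Type u} [TopologicalSpace B]

/-- Two copies of `B` glued along `O`. -/
structure Dbl (O : Set B) : Type u where
  /-- the underlying point of `B` -/
  pt : B
  /-- the copy -/
  side : Bool
  ok : pt ∈ O → side = false

/-- The first copy. -/
def i1 (O : Set B) (x : B) : Dbl O := ⟨x, false, fun _ => rfl⟩

open Classical in
/-- The second copy. -/
noncomputable def i2 (O : Set B) (x : B) : Dbl O :=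
  if h : x ∈ O then ⟨x, false, fun _ => rfl⟩ else ⟨x, true, fun h' => absurd h' h⟩

instance (O : Set B) : TopologicalSpace (Dbl O) where
  IsOpen U := IsOpen (i1 O ⁻¹' U) ∧ IsOpen (i2 O ⁻¹' U)
  isOpen_univ := ⟨isOpen_univ, isOpen_univ⟩
  isOpen_inter := fun U V hU hV => ⟨hU.1.inter hV.1, hU.2.inter hV.2⟩
  isOpen_sUnion := by
    intro T hT
    rw [preimage_sUnion, preimage_sUnion]
    exact ⟨isOpen_biUnion fun U hU => (hT U hU).1, isOpen_biUnion fun U hU => (hT U hU).2⟩

theorem isOpen_dbl {O : Set B} {U : Set (Dbl O)} :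
    IsOpen U ↔ IsOpen (i1 O ⁻¹' U) ∧ IsOpen (i2 O ⁻¹' U) := Iff.rfl

theorem continuous_i1 (O : Set B) : Continuous (i1 O) := continuous_def.2 fun _ hU => hU.1
theorem continuous_i2 (O : Set B) : Continuous (i2 O) := continuous_def.2 fun _ hU => hU.2

/-- The projection. -/
def rho {O : Set B} (q : Dbl O) : B := q.pt

theorem rho_i1 (O : Set B) (x : B) : rho (i1 O x) = x := rfl

theorem rho_i2 (O : Set B) (x : B) : rho (i2 O x) = x := by
  unfold i2 rho
  split_ifs <;> rfl

theorem continuous_rho (O : Set B) : Continuous (rho : Dbl O → B) := by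
  rw [continuous_def]
  intro U hU
  constructor
  · exact hU
  · have : i2 O ⁻¹' (rho ⁻¹' U) = U := by
      ext x
      simp only [mem_preimage, rho_i2]
    rw [this]
    exact hU

theorem i2_mem {O : Set B} {x : B} (h : x ∈ O) : i2 O x = i1 O x := by
  unfold i2
  rw [dif_pos h]
  rfl

theorem i1_ne_i2 {O : Set B} {x y : B} (h : y ∉ O) : i1 O x ≠ i2 O y := by
  intro he
  unfold i2 at he
  rw [dif_neg h] at he
  have := congrArg Dbl.side he
  simp [i1] at this

theorem i1_eq_i2_iff {O : Set B} {x : B} : i1 O x = i2 O x ↔ x ∈ O := by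
  constructor
  · intro h
    by_contra hx
    exact i1_ne_i2 hx h
  · intro h
    exact (i2_mem h).symm

theorem eq_i1_or {O : Set B} (q : Dbl O) : q = i1 O (rho q) ∨ q = i2 O (rho q) := by
  obtain ⟨x, b, hq⟩ := q
  cases b with
  | false => left; rfl
  | true =>
    right
    have hx : x ∉ O := fun h => by simpa using hq h
    show _ = i2 O x
    unfold i2
    rw [dif_neg hx]

theorem isOpen_range_i1 {O : Set B} (hO : IsOpen O) : IsOpen (range (i1 O)) := by
  constructor
  · rw [preimage_range]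
    exact isOpen_univ
  · have : i2 O ⁻¹' range (i1 O) = O := by
      ext x
      constructor
      · rintro ⟨y, hy⟩
        by_contra hx
        exact i1_ne_i2 hx hy
      · intro hx
        exact ⟨x, (i2_mem hx).symm⟩
    rw [this]
    exact hO

theorem isOpen_range_i2 {O : Set B} (hO : IsOpen O) : IsOpen (range (i2 O)) := by
  constructor
  · have : i1 O ⁻¹' range (i2 O) = O := by
      ext x
      constructor
      · rintro ⟨y, hy⟩
        by_cases hyO : y ∈ O
        · rw [i2_mem hyO] at hy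
          have := congrArg rho hy
          rw [rho_i1, rho_i1] at this
          rwa [← this]
        · exact absurd hy.symm (i1_ne_i2 hyO)
      · intro hx
        exact ⟨x, i2_mem hx⟩
    rw [this]
    exact hO
  · rw [preimage_range]
    exact isOpen_univ

theorem mem_of_ranges {O : Set B} {q : Dbl O} (h1 : q ∈ range (i1 O)) (h2 : q ∈ range (i2 O)) :
    rho q ∈ O := by
  obtain ⟨x, rfl⟩ := h1
  obtain ⟨y, hy⟩ := h2
  by_cases hyO : y ∈ O
  · rw [i2_mem hyO] at hy
    have := congrArg rho hy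
    rw [rho_i1, rho_i1] at this
    rw [rho_i1, ← this]
    exact hyO
  · exact absurd hy.symm (i1_ne_i2 hyO)

/-- The criterion for a doubling to be UOK. -/
theorem uok_dbl [T2Space B] {O : Set B} (hO : IsOpen O)
    (H : ∀ (L : Type u) [TopologicalSpace L], T2Space L → LocallyCompactSpace L →
      NoncompactSpace L → ∀ ψ : OnePoint L → B, Continuous ψ → ψ OnePoint.infty ∉ O →
        ∀ W : Set (OnePoint L), IsOpen W → OnePoint.infty ∈ W → ∃ l : L, (l : OnePoint L) ∈ W ∧
          ψ l ∉ O) : UOK (Dbl O) := by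
  intro L _ hT hLC hNC f hf g h hg hh hgf hhf
  have hrho : (fun w => rho (g w)) = fun w => rho (h w) := by
    apply Continuous.ext_on OnePoint.denseRange_coe ((continuous_rho O).comp hg)
      ((continuous_rho O).comp hh)
    rintro _ ⟨l, rfl⟩
    show rho (g l) = rho (h l)
    rw [hgf, hhf]
  have hinf : g OnePoint.infty = h OnePoint.infty := by
    by_contra hne
    have hx : rho (g OnePoint.infty) = rho (h OnePoint.infty) := congrFun hrho _
    -- the key contradiction
    have key : ∀ g h : OnePoint L → Dbl O, Continuous g → Continuous h →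
        (∀ l : L, g l = h l) → rho (g OnePoint.infty) = rho (h OnePoint.infty) →
        g OnePoint.infty ∈ range (i1 O) → h OnePoint.infty ∈ range (i2 O) →
        g OnePoint.infty ≠ h OnePoint.infty → False := by
      intro g h hg hh hgh hx h1 h2 hne
      have hxO : rho (g OnePoint.infty) ∉ O := by
        intro hxO
        apply hne
        obtain ⟨a, ha⟩ := h1
        obtain ⟨b, hb⟩ := h2
        rw [← ha, ← hb, rho_i1, rho_i2] at hx
        rw [← ha, rho_i1] at hxO
        rw [← ha, ← hb, ← hx, i2_mem hxO]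
      obtain ⟨l, hlW, hl⟩ := H L hT hLC hNC (fun w => rho (g w)) ((continuous_rho O).comp hg) hxO
        (g ⁻¹' range (i1 O) ∩ h ⁻¹' range (i2 O))
        (((isOpen_range_i1 hO).preimage hg).inter ((isOpen_range_i2 hO).preimage hh)) ⟨h1, h2⟩
      apply hl
      apply mem_of_ranges hlW.1
      rw [hgh]
      exact hlW.2
    have hgh : ∀ l : L, g l = h l := fun l => by rw [hgf, hhf]
    rcases eq_i1_or (g OnePoint.infty) with h1 | h1 <;>
      rcases eq_i1_or (h OnePoint.infty) with h2 | h2
    · apply hne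
      rw [h1, h2, hx]
    · exact key g h hg hh hgh hx ⟨_, h1.symm⟩ ⟨_, h2.symm⟩ hne
    · exact key h g hh hg (fun l => (hgh l).symm) hx.symm ⟨_, h2.symm⟩ ⟨_, h1.symm⟩
        (fun h => hne h.symm)
    · apply hne
      rw [h1, h2, hx]
  funext w
  induction w using OnePoint.rec with
  | infty => exact hinf
  | coe l => rw [hgf, hhf]

end dbl

/-! ### The space of ultrafilters -/

section ultra

variable {α : Type u}

/-- A sequence of ultrafilters converging to `x` takes the value `x`. -/
theorem ncs {s : ℕ → Ultrafilter α} {x : Ultrafilter α} (hs : Tendsto s atTop (𝓝 x)) :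
    ∃ n, s n = x := by
  classical
  by_contra hcon
  push Not at hcon
  have hev : ∀ A : Set α, A ∈ x → ∀ᶠ n in atTop, A ∈ s n := fun A hA =>
    hs.eventually ((ultrafilter_isOpen_basic A).mem_nhds hA)
  have hB : ∀ n, ∃ B : Set α, B ∈ s n ∧ B ∉ x := by
    intro n
    by_contra hno
    push Not at hno
    exact hcon n (Ultrafilter.eq_of_le (fun A hA => hno A hA)).symm
  choose B hBs hBx using hB
  obtain ⟨f, _, hf⟩ := exists_seq_of_forall_finset_exists (fun _ : ℕ => True)
    (fun i j => i < j ∧ B i ∉ s j) (by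
      intro S _
      have h1 : ∀ᶠ n in atTop, ∀ i ∈ S, B i ∉ s n := by
        rw [Filter.eventually_all_finset]
        intro i _
        filter_upwards [hev _ ((Ultrafilter.compl_mem_iff_notMem).2 (hBx i))] with n hn
        exact (Ultrafilter.compl_mem_iff_notMem).1 hn
      have h2 : ∀ᶠ n in atTop, ∀ i ∈ S, i < n := by
        rw [Filter.eventually_all_finset]
        intro i _
        exact eventually_gt_atTop i
      obtain ⟨n, hn1, hn2⟩ := (h1.and h2).exists
      exact ⟨n, trivial, fun i hi => ⟨hn2 i hi, hn1 i hi⟩⟩)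
  have hmono : StrictMono f := fun i j hij => (hf i j hij).1
  let D : ℕ → Set α := fun j => B (f j) ∩ ⋂ i ∈ Finset.range j, (B (f i))ᶜ
  have hD : ∀ j, D j ∈ s (f j) := by
    intro j
    apply Filter.inter_mem (hBs (f j))
    rw [Filter.biInter_finset_mem]
    intro i hi
    exact (Ultrafilter.compl_mem_iff_notMem).2 (hf i j (Finset.mem_range.1 hi)).2
  have hdisj : ∀ i j, i < j → Disjoint (D i) (D j) := by
    intro i j hij
    rw [Set.disjoint_left]
    rintro a ⟨ha, _⟩ ⟨_, ha'⟩
    rw [mem_iInter₂] at ha'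
    exact ha' i (Finset.mem_range.2 hij) ha
  have hdisj' : ∀ i j, i ≠ j → Disjoint (D i) (D j) := by
    intro i j hij
    rcases lt_or_gt_of_ne hij with h | h
    · exact hdisj i j h
    · exact (hdisj j i h).symm
  let E : Set α := ⋃ j, D (2 * j)
  have h1 : ∀ j, E ∈ s (f (2 * j)) := fun j =>
    Filter.mem_of_superset (hD (2 * j)) (subset_iUnion (fun j => D (2 * j)) j)
  have h2 : ∀ j, E ∉ s (f (2 * j + 1)) := by
    intro j hE
    have hem : D (2 * j + 1) ∩ E ∈ s (f (2 * j + 1)) := Filter.inter_mem (hD _) hE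
    have : D (2 * j + 1) ∩ E = ∅ := by
      ext a
      simp only [mem_inter_iff, mem_empty_iff_false, iff_false, not_and]
      intro ha haE
      obtain ⟨k, hk⟩ := mem_iUnion.1 haE
      exact Set.disjoint_left.1 (hdisj' (2 * j + 1) (2 * k) (by omega)) ha hk
    rw [this] at hem
    exact (s (f (2 * j + 1))).empty_notMem hem
  by_cases hE : E ∈ x
  · obtain ⟨N, hN⟩ := eventually_atTop.1 (hev E hE)
    exact h2 N (hN _ ((by omega : N ≤ 2 * N + 1).trans (hmono.id_le _)))
  · have hE' : Eᶜ ∈ x := (Ultrafilter.compl_mem_iff_notMem).2 hE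
    obtain ⟨N, hN⟩ := eventually_atTop.1 (hev Eᶜ hE')
    have h3 := hN (f (2 * N)) ((by omega : N ≤ 2 * N).trans (hmono.id_le _))
    exact (Ultrafilter.compl_mem_iff_notMem).1 h3 (h1 N)

/-- Countable unions of clopen sets of ultrafilters. -/
def OA (A : ℕ → Set α) : Set (Ultrafilter α) := {y | ∃ n, A n ∉ y}

theorem isOpen_OA (A : ℕ → Set α) : IsOpen (OA A) := by
  have : OA A = ⋃ n, {y : Ultrafilter α | A n ∈ y}ᶜ := by
    ext y
    simp [OA]
  rw [this]
  exact isOpen_iUnion fun n => (ultrafilter_isClosed_basic (A n)).isOpen_compl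

theorem uok_OA (A : ℕ → Set α) : UOK (Dbl (OA A)) := by
  apply uok_dbl (isOpen_OA A)
  intro L _ hT hLC hNC ψ hψ hψ0 W hW hWinf
  by_contra hcon
  push Not at hcon
  have hA0 : ∀ n, A n ∈ ψ OnePoint.infty := by
    intro n
    by_contra h
    exact hψ0 ⟨n, h⟩
  obtain ⟨K₀, hK₀, hinfK₀, hK₀W⟩ := exists_compact_subset hW hWinf
  let C : ℕ → Set (OnePoint L) := fun n => {w | ∃ i ≤ n, A i ∉ ψ w}
  have hCo : ∀ n, IsOpen (C n) := by
    intro n
    have : C n = ⋃ i ≤ n, ψ ⁻¹' {y : Ultrafilter α | A i ∈ y}ᶜ := by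
      ext w
      simp [C]
    rw [this]
    exact isOpen_iUnion fun i => isOpen_iUnion fun _ =>
      (ultrafilter_isClosed_basic (A i)).isOpen_compl.preimage hψ
  have hCc : ∀ n, IsClosed (C n) := by
    intro n
    have : (C n)ᶜ = ⋂ i ∈ Finset.range (n + 1), ψ ⁻¹' {y : Ultrafilter α | A i ∈ y} := by
      ext w
      simp only [C, mem_compl_iff, mem_iInter, Finset.mem_range, mem_preimage]
      constructor
      · intro h i hi
        by_contra h'
        exact h ⟨i, by omega, h'⟩
      · rintro h ⟨i, hi, h'⟩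
        exact h' (h i (by omega))
    rw [← isOpen_compl_iff, this]
    exact isOpen_biInter_finset fun i _ => (ultrafilter_isOpen_basic (A i)).preimage hψ
  have hCmono : ∀ n m, n ≤ m → C n ⊆ C m := by
    rintro n m hnm w ⟨i, hi, h⟩
    exact ⟨i, hi.trans hnm, h⟩
  have hex : ∀ n, ∃ l : L, (l : OnePoint L) ∈ interior K₀ ∩ (C n)ᶜ := by
    intro n
    have h1 : IsOpen (interior K₀ ∩ (C n)ᶜ) := isOpen_interior.inter (hCc n).isOpen_compl
    have h2 : (OnePoint.infty : OnePoint L) ∈ interior K₀ ∩ (C n)ᶜ :=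
      ⟨hinfK₀, fun ⟨i, _, h⟩ => h (hA0 i)⟩
    obtain ⟨w, hw, ⟨l, hl⟩⟩ := OnePoint.denseRange_coe.inter_open_nonempty _ h1 ⟨_, h2⟩
    exact ⟨l, by rw [hl]; exact hw⟩
  choose y hy using hex
  have hlim : Tendsto (fun n => (y n : OnePoint L)) atTop (𝓝 OnePoint.infty) := by
    rw [tendsto_nhds]
    intro V hV hVinf
    have hc : IsCompact (K₀ \ V) := hK₀.diff hV
    obtain ⟨t, ht⟩ := hc.elim_finite_subcover C hCo (by
      rintro w ⟨hwK, hwV⟩
      have hwW := hK₀W hwK
      induction w using OnePoint.rec with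
      | infty => exact absurd hVinf hwV
      | coe l =>
        obtain ⟨n, hn⟩ := hcon l hwW
        exact mem_iUnion.2 ⟨n, n, le_refl n, hn⟩)
    obtain ⟨N, hN⟩ := t.bddAbove
    filter_upwards [eventually_ge_atTop N] with n hn
    by_contra hyV
    have hyK : (y n : OnePoint L) ∈ K₀ := interior_subset (hy n).1
    obtain ⟨i, hi, hi'⟩ := mem_iUnion₂.1 (ht ⟨hyK, hyV⟩)
    exact (hy n).2 (hCmono i n ((hN hi).trans hn) hi')
  have hlim2 : Tendsto (fun n => ψ (y n)) atTop (𝓝 (ψ OnePoint.infty)) :=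
    (hψ.tendsto _).comp hlim
  obtain ⟨n, hn⟩ := ncs hlim2
  apply hψ0
  rw [← hn]
  exact hcon (y n) (hK₀W (interior_subset (hy n).1))

/-! ### The `G_δ`-topology on the space of ultrafilters -/

/-- The space of ultrafilters with the `G_δ`-topology. -/
@[ext] structure P (α : Type u) : Type u where
  /-- the underlying ultrafilter -/
  u : Ultrafilter α

instance : TopologicalSpace (P α) where
  IsOpen U := ∀ x ∈ U, ∃ A : ℕ → Set α, (∀ n, A n ∈ x.u) ∧
    ∀ y : P α, (∀ n, A n ∈ y.u) → y ∈ U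
  isOpen_univ := fun _ _ => ⟨fun _ => univ, fun _ => univ_mem, fun _ _ => trivial⟩
  isOpen_inter := by
    rintro U V hU hV x ⟨hxU, hxV⟩
    obtain ⟨A, hA, hA'⟩ := hU x hxU
    obtain ⟨B, hB, hB'⟩ := hV x hxV
    refine ⟨fun n => A n ∩ B n, fun n => inter_mem (hA n) (hB n), fun y hy => ⟨?_, ?_⟩⟩
    · exact hA' y fun n => mem_of_superset (hy n) inter_subset_left
    · exact hB' y fun n => mem_of_superset (hy n) inter_subset_right
  isOpen_sUnion := by
    rintro T hT x ⟨U, hU, hx⟩
    obtain ⟨A, hA, hA'⟩ := hT U hU x hx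
    exact ⟨A, hA, fun y hy => ⟨U, hU, hA' y hy⟩⟩

theorem isOpen_P {U : Set (P α)} : IsOpen U ↔ ∀ x ∈ U, ∃ A : ℕ → Set α,
    (∀ n, A n ∈ x.u) ∧ ∀ y : P α, (∀ n, A n ∈ y.u) → y ∈ U :=
  Iff.rfl

theorem isOpen_basic_P (A : ℕ → Set α) : IsOpen {y : P α | ∀ n, A n ∈ y.u} :=
  fun _ hx => ⟨A, hx, fun _ hy => hy⟩

theorem sep_P {x y : P α} (h : x ≠ y) : ∃ A : Set α, A ∈ x.u ∧ Aᶜ ∈ y.u := by
  by_contra hno
  push Not at hno
  apply h
  apply P.ext
  apply Eq.symm
  apply Ultrafilter.eq_of_le
  intro A hA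
  by_contra hA'
  exact hno A hA ((Ultrafilter.compl_mem_iff_notMem).2 hA')

instance : T2Space (P α) := by
  constructor
  intro x y h
  obtain ⟨A, hA, hA'⟩ := sep_P h
  refine ⟨{z : P α | ∀ _ : ℕ, A ∈ z.u}, {z : P α | ∀ _ : ℕ, Aᶜ ∈ z.u}, isOpen_basic_P _,
    isOpen_basic_P _, fun _ => hA, fun _ => hA', ?_⟩
  rw [Set.disjoint_left]
  intro z hz hz'
  exact (Ultrafilter.compl_mem_iff_notMem).1 (hz' 0) (hz 0)

/-- Compact subsets of the `G_δ`-space are finite. -/
theorem finite_of_isCompact_P {S : Set (P α)} (hS : IsCompact S) : S.Finite := by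
  classical
  by_contra hinf
  have hinf' : S.Infinite := hinf
  let y : ℕ → P α := fun n => (hinf'.natEmbedding S n : P α)
  have hyS : ∀ n, y n ∈ S := fun n => (hinf'.natEmbedding S n).2
  have hyinj : Function.Injective y := fun n m h =>
    (hinf'.natEmbedding S).injective (Subtype.ext h)
  have hex : ∀ x : P α, ∃ A : ℕ → Set α, (∀ n, A n ∈ x.u) ∧
      ∀ n, y n ≠ x → A n ∉ (y n).u := by
    intro x
    have : ∀ n, ∃ A : Set α, A ∈ x.u ∧ (y n ≠ x → A ∉ (y n).u) := by
      intro n
      by_cases h : y n = x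
      · exact ⟨univ, univ_mem, fun h' => absurd h h'⟩
      · obtain ⟨A, hA, hA'⟩ := sep_P (Ne.symm h)
        exact ⟨A, hA, fun _ => (Ultrafilter.compl_mem_iff_notMem).1 hA'⟩
    choose A hA hA' using this
    exact ⟨A, hA, hA'⟩
  choose A hA hA' using hex
  obtain ⟨t, ht⟩ := hS.elim_finite_subcover
    (fun x : P α => {z : P α | ∀ n, A x n ∈ z.u}) (fun x => isOpen_basic_P _)
    (fun x _ => mem_iUnion.2 ⟨x, hA x⟩)
  have hsub : range y ⊆ (t : Set (P α)) := by
    rintro _ ⟨n, rfl⟩
    obtain ⟨x, hx, hxy⟩ := mem_iUnion₂.1 (ht (hyS n))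
    by_cases h : y n = x
    · rw [h]; exact hx
    · exact absurd (hxy n) (hA' x n h)
  exact (infinite_range_of_injective hyinj) (t.finite_toSet.subset hsub)

theorem uok_P (p : P α) : UOK (Dbl {y : P α | y ≠ p}) := by
  apply uok_dbl isOpen_ne
  intro L _ hT hLC hNC ψ hψ hψ0 W hW hWinf
  have hp : ψ OnePoint.infty = p := by
    by_contra h
    exact hψ0 h
  have hfin : (range ψ).Finite := by
    apply finite_of_isCompact_P
    exact isCompact_range hψ
  have hV : IsOpen (range ψ \ {p})ᶜ := (hfin.subset sdiff_subset).isClosed.isOpen_compl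
  have h1 : IsOpen (W ∩ ψ ⁻¹' (range ψ \ {p})ᶜ) := hW.inter (hV.preimage hψ)
  have h2 : (OnePoint.infty : OnePoint L) ∈ W ∩ ψ ⁻¹' (range ψ \ {p})ᶜ :=
    ⟨hWinf, fun h => h.2 hp⟩
  obtain ⟨w, hw, ⟨l, hl⟩⟩ := OnePoint.denseRange_coe.inter_open_nonempty _ h1 ⟨_, h2⟩
  refine ⟨l, by rw [hl]; exact hw.1, ?_⟩
  intro hlp
  have hlp' : ψ l ≠ p := hlp
  apply hw.2
  rw [← hl]
  exact ⟨⟨_, rfl⟩, hlp'⟩

end ultra

/-! ### The main result -/

section main

variable {C : SpaceClass.{u}}

/-- If `C` characterises UOK, then the preimage of each point under a continuous map from a member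
of `C` to a space of ultrafilters is open. -/
theorem isOpen_fibre (hC : ∀ (X : Type u) [TopologicalSpace X], CHausdorff C X ↔ UOK X)
    {Z : Type u} [tZ : TopologicalSpace Z] (hZ : C Z tZ) {α : Type u} {φ : Z → Ultrafilter α}
    (hφ : Continuous φ) (p : Ultrafilter α) : IsOpen {z | φ z = p} := by
  have hA : ∀ A : ℕ → Set α, IsClosed (φ ⁻¹' OA A) := by
    intro A
    have h1 := (hC (Dbl (OA A))).2 (uok_OA A) Z hZ
      (fun z => (i1 (OA A) (φ z), i2 (OA A) (φ z)))
      (((continuous_i1 _).comp hφ).prodMk ((continuous_i2 _).comp hφ))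
    have h2 : (fun z => (i1 (OA A) (φ z), i2 (OA A) (φ z))) ⁻¹' {q | q.1 = q.2} =
        φ ⁻¹' OA A := by
      ext z
      exact i1_eq_i2_iff
    rwa [h2] at h1
  have hcont : Continuous (fun z => P.mk (φ z)) := by
    rw [continuous_def]
    intro U hU
    rw [isOpen_iff_forall_mem_open]
    intro z hz
    obtain ⟨A, hAz, hAU⟩ := isOpen_P.1 hU (P.mk (φ z)) hz
    refine ⟨(φ ⁻¹' OA A)ᶜ, ?_, (hA A).isOpen_compl, ?_⟩
    · intro w hw
      apply hAU
      intro n
      by_contra h
      exact hw ⟨n, h⟩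
    · rintro ⟨n, hn⟩
      exact hn (hAz n)
  let O : Set (P α) := {y : P α | y ≠ P.mk p}
  have h1 := (hC (Dbl O)).2 (uok_P (P.mk p)) Z hZ
    (fun z => (i1 O (P.mk (φ z)), i2 O (P.mk (φ z))))
    (((continuous_i1 _).comp hcont).prodMk ((continuous_i2 _).comp hcont))
  have h2 : {z | φ z = p} = ((fun z => (i1 O (P.mk (φ z)), i2 O (P.mk (φ z)))) ⁻¹'
      {q | q.1 = q.2})ᶜ := by
    ext z
    have h3 : i1 O (P.mk (φ z)) = i2 O (P.mk (φ z)) ↔ P.mk (φ z) ∈ O := i1_eq_i2_iff
    show φ z = p ↔ ¬ (i1 O (P.mk (φ z)) = i2 O (P.mk (φ z)))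
    rw [h3]
    constructor
    · intro h h'
      apply h'
      rw [h]
    · intro h
      by_contra h'
      apply h
      intro h4
      exact h' (congrArg P.u h4)
  rw [h2]
  exact h1.isOpen_compl

/-- The doubling of the space of ultrafilters outside a point is then `C`-Hausdorff. -/
theorem cHausdorff_point (hC : ∀ (X : Type u) [TopologicalSpace X], CHausdorff C X ↔ UOK X)
    {α : Type u} (p : Ultrafilter α) : CHausdorff C (Dbl {y : Ultrafilter α | y ≠ p}) := by
  set O : Set (Ultrafilter α) := {y : Ultrafilter α | y ≠ p} with hOdef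
  intro Z _ hZ f hf
  have hO : IsOpen O := isOpen_ne
  have h1 : Continuous (fun z => (f z).1) := continuous_fst.comp hf
  have h2 : Continuous (fun z => (f z).2) := continuous_snd.comp hf
  have hr1 : Continuous (fun z => rho (f z).1) := (continuous_rho O).comp h1
  have hr2 : Continuous (fun z => rho (f z).2) := (continuous_rho O).comp h2
  rw [← isOpen_compl_iff, isOpen_iff_forall_mem_open]
  intro z hz
  have hz' : (f z).1 ≠ (f z).2 := hz
  by_cases hne : rho (f z).1 = rho (f z).2
  · have key : ∀ g h : Z → Dbl O, Continuous g → Continuous h → g z ∈ range (i1 O) →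
        h z ∈ range (i2 O) → rho (g z) = rho (h z) → g z ≠ h z →
        ∃ t ⊆ {w | g w ≠ h w}, IsOpen t ∧ z ∈ t := by
      intro g h hg hh hg1 hh2 hgh hne'
      have hp : rho (g z) = p := by
        by_contra hxO
        apply hne'
        obtain ⟨a, ha⟩ := hg1
        obtain ⟨b, hb⟩ := hh2
        have ha' : a ∈ O := by
          rw [← ha, rho_i1] at hxO
          exact hxO
        rw [← ha, ← hb, rho_i1, rho_i2] at hgh
        rw [← ha, ← hb, ← hgh, i2_mem ha']
      refine ⟨{w | rho (g w) = p} ∩ (g ⁻¹' range (i1 O) ∩ h ⁻¹' range (i2 O)), ?_, ?_, ?_⟩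
      · rintro w ⟨hw1, hw2, hw3⟩ heq
        have hw4 : g w = h w := heq
        have hw5 : h w ∈ range (i2 O) := hw3
        rw [← hw4] at hw5
        exact mem_of_ranges hw2 hw5 hw1
      · exact (isOpen_fibre hC hZ ((continuous_rho O).comp hg) p).inter
          (((isOpen_range_i1 hO).preimage hg).inter ((isOpen_range_i2 hO).preimage hh))
      · exact ⟨hp, hg1, hh2⟩
    rcases eq_i1_or (f z).1 with ha | ha <;> rcases eq_i1_or (f z).2 with hb | hb
    · exact absurd (by rw [ha, hb, hne]) hz'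
    · obtain ⟨t, ht, ht'⟩ := key _ _ h1 h2 ⟨_, ha.symm⟩ ⟨_, hb.symm⟩ hne hz'
      exact ⟨t, fun w hw h => ht hw h, ht'⟩
    · obtain ⟨t, ht, ht'⟩ := key _ _ h2 h1 ⟨_, hb.symm⟩ ⟨_, ha.symm⟩ hne.symm (Ne.symm hz')
      exact ⟨t, fun w hw h => ht hw (Eq.symm h), ht'⟩
    · exact absurd (by rw [ha, hb, hne]) hz'
  · refine ⟨{w | rho (f w).1 ≠ rho (f w).2}, ?_, isOpen_ne_fun hr1 hr2, hne⟩
    intro w hw h
    exact hw (congrArg rho h)

/-- The doubling of the space of ultrafilters outside a non-principal ultrafilter is not UOK. -/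
theorem not_uok_point {α : Type u} (p : Ultrafilter α) (hp : ∀ a : α, p ≠ pure a) :
    ¬ UOK (Dbl {y : Ultrafilter α | y ≠ p}) := by
  set O : Set (Ultrafilter α) := {y : Ultrafilter α | y ≠ p} with hOdef
  intro h
  have hO : IsOpen O := isOpen_ne
  have hemb : IsOpenEmbedding (Subtype.val : O → Ultrafilter α) := hO.isOpenEmbedding_subtypeVal
  have hLC : LocallyCompactSpace O := hO.locallyCompactSpace
  have hrange : range (Subtype.val : O → Ultrafilter α) = {p}ᶜ := by
    rw [Subtype.range_val]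
    rfl
  have hNC : NoncompactSpace O := by
    rw [← not_compactSpace_iff]
    intro hcomp
    have h1 : IsCompact O := isCompact_iff_compactSpace.2 hcomp
    have h2 : IsClosed O := h1.isClosed
    have h3 : IsOpen Oᶜ := h2.isOpen_compl
    have h4 : p ∈ Oᶜ := fun h => h rfl
    obtain ⟨T, hT, hpT, hTO⟩ := ultrafilterBasis_is_basis.exists_subset_of_mem_open h4 h3
    obtain ⟨A, rfl⟩ := hT
    have hpA : A ∈ p := hpT
    obtain ⟨a, ha⟩ := p.nonempty_of_mem hpA
    have h5 : (pure a : Ultrafilter α) ∈ Oᶜ := hTO ha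
    apply h5
    exact fun h => hp a h.symm
  let e : OnePoint O ≃ₜ Ultrafilter α :=
    OnePoint.equivOfIsEmbeddingOfRangeEq p (Subtype.val : O → Ultrafilter α)
      hemb.isEmbedding hrange
  have he : ∀ l : O, e (l : OnePoint O) = l.1 := fun l =>
    OnePoint.equivOfIsEmbeddingOfRangeEq_apply_coe _ _ _ _ l
  have he' : e OnePoint.infty = p := OnePoint.equivOfIsEmbeddingOfRangeEq_apply_infty _ _ _ _
  have := h O inferInstance hLC hNC (fun l => i1 O l.1)
    ((continuous_i1 O).comp continuous_subtype_val)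
    (fun w => i1 O (e w)) (fun w => i2 O (e w))
    ((continuous_i1 O).comp e.continuous) ((continuous_i2 O).comp e.continuous)
    (fun l => by simp only [he]) (fun l => by simp only [he]; exact i2_mem l.2)
  have h6 := congrFun this OnePoint.infty
  simp only [he'] at h6
  exact (i1_eq_i2_iff.1 h6) rfl

end main

/-- There is no class `C` of topological spaces such that a space is UOK if and only if it is
`C`-Hausdorff. -/
theorem result : ¬ ∃ C : SpaceClass.{u}, ∀ (X : Type u) [TopologicalSpace X],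
    CHausdorff C X ↔ UOK X := by
  rintro ⟨C, hC⟩
  have hp : ∀ a : ULift.{u} ℕ, hyperfilter (ULift.{u} ℕ) ≠ pure a := by
    intro a ha
    have h1 : ({a} : Set (ULift.{u} ℕ)) ∈ (hyperfilter (ULift.{u} ℕ)) := by
      rw [ha]
      exact Ultrafilter.mem_pure.2 rfl
    exact Set.Finite.notMem_hyperfilter (Set.finite_singleton a) h1
  exact not_uok_point _ hp ((hC _).1 (cHausdorff_point hC _))

end Pool.Agent.Results.MP_82653f_gt.NoTestClass
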